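import Pool.Agent.Helper46.Corr.Family

/-!
# MP_421f91_an: non-convergent orbits of the iterated correlation map

For every `M` and every sufficiently large `n` there is a two-parameter family of correlation
matrices without constant rows whose orbits under the correlation map do not converge; their
omega-limit sets have more than `M` points and contain no periodic point of period at most `M`.
-/

set_option autoImplicit false
open Filter Topology

namespace Pool.Agent.Results.MP_421f91_an.NonConvergent

open Pool.Agent.Helper46.Corr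

theorem result (M : ℕ) : ∃ N : ℕ, ∀ n ≥ N,
    ∃ (U : Set (ℝ × ℝ)) (F : ℝ × ℝ → Matrix (Fin n) (Fin n) ℝ),
      IsOpen U ∧ U.Nonempty ∧ Continuous F ∧ Set.InjOn F U ∧ ∀ u ∈ U,
        (∀ k, corrMap^[k] (F u) ∈ CorrND n) ∧
        (¬ ∃ L, Tendsto (fun k => corrMap^[k] (F u)) atTop (𝓝 L)) ∧
        omegaSet (F u) ⊆ CorrND n ∧ M < (omegaSet (F u)).encard ∧
        ∀ L ∈ omegaSet (F u), ∀ p, 1 ≤ p → p ≤ M → corrMap^[p] L ≠ L :=
  main M

end Pool.Agent.Results.MP_421f91_an.NonConvergent
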